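import Pool.Agent.H127.GL.Sets

/-!
# The variance of Möbius sums in short intervals: shifts and edges
-/

set_option autoImplicit false

namespace Pool.Agent.H127.GV

open MeasureTheory Filter Topology Set Pool.Agent.H127.GL

theorem M_meas {h : ℝ} (hh : 0 ≤ h) : Measurable (fun x => M x h) := by
  apply measurable_of_tendsto_metrizable (f := fun (N : ℕ) (x : ℝ) => ∑ n ∈ Finset.range N,
      if |(n : ℝ) - x| < h / 2 then ((ArithmeticFunction.moebius n : ℤ) : ℝ) else 0)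
  · intro N
    apply Finset.measurable_sum
    intro n _
    apply Measurable.ite _ measurable_const measurable_const
    exact measurableSet_lt ((measurable_const.sub measurable_id).abs) measurable_const
  · rw [tendsto_pi_nhds]
    intro x
    apply tendsto_const_nhds.congr'
    filter_upwards [eventually_ge_atTop (⌊x + h⌋₊ + 1)] with N hN
    exact M_eq hh hN

theorem sq_int {h : ℝ} (hh : 0 ≤ h) (s a b : ℝ) :
    IntervalIntegrable (fun x => (M (x + s) h) ^ 2) volume a b := by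
  apply (intervalIntegrable_const (c := (h + 1) ^ 2)).mono_fun'
  · exact (((M_meas hh).comp (measurable_id.add_const s)).pow_const 2).aestronglyMeasurable
  · refine Eventually.of_forall fun x => ?_
    show ‖M (x + s) h ^ 2‖ ≤ (h + 1) ^ 2
    rw [Real.norm_of_nonneg (sq_nonneg _), ← sq_abs]
    exact pow_le_pow_left₀ (abs_nonneg _) (M_abs hh) 2

/-- the integral of the square of the sum -/
noncomputable def I (a b h : ℝ) : ℝ := ∫ x in a..b, (M x h) ^ 2

theorem sq_int0 {h : ℝ} (hh : 0 ≤ h) (a b : ℝ) : IntervalIntegrable (fun x => (M x h) ^ 2) volume a b := by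
  simpa using sq_int hh 0 a b

theorem I_add {h : ℝ} (hh : 0 ≤ h) (a b c : ℝ) : I a b h + I b c h = I a c h :=
  intervalIntegral.integral_add_adjacent_intervals (sq_int0 hh a b) (sq_int0 hh b c)

theorem I_nonneg {a b : ℝ} (h : ℝ) (hab : a ≤ b) : 0 ≤ I a b h :=
  intervalIntegral.integral_nonneg hab fun _ _ => sq_nonneg _

theorem I_mono {h a b c d : ℝ} (hh : 0 ≤ h) (h1 : c ≤ a) (h2 : b ≤ d) :
    I a b h ≤ I c d h := by
  have e1 := I_add hh c a b
  have e2 := I_add hh c b d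
  have e3 := I_nonneg h h1
  have e4 := I_nonneg h h2
  linarith

theorem shift_eq (h s a b : ℝ) : ∫ x in a..b, (M (x + s) h) ^ 2 = I (a + s) (b + s) h :=
  intervalIntegral.integral_comp_add_right (fun x => (M x h) ^ 2) s

/-- `1 / ζ(2)` -/
noncomputable def q : ℝ := (Real.pi ^ 2 / 6)⁻¹

theorem q_pos : 0 < q := inv_pos.2 (by positivity)

theorem q_le : q ≤ 1 := by
  unfold q
  apply inv_le_one_of_one_le₀
  have := Real.pi_gt_three
  nlinarith

/-- the asymptotic formula, uniformly for the lengths in `S` -/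
def Unif (S : Set ℝ) : Prop :=
  ∀ ε : ℝ, 0 < ε → ε < 1 / 2 → ∀ η : ℝ, 0 < η → ∀ᶠ Z : ℝ in atTop, ∀ g ∈ S, Z ^ ε < g → g < Z ^ (1 - ε) →
    |I Z (2 * Z) g - q * g * Z| ≤ η * g * Z

theorem unif2 {S : Set ℝ} (hS : Unif S) {ε : ℝ} (hε : 0 < ε) (hε1 : ε < 1 / 2) {η : ℝ} (hη : 0 < η)
    {K : ℝ} (hK : 1 ≤ K) :
    ∀ᶠ X : ℝ in atTop, ∀ Z : ℝ, X / K ≤ Z → Z ≤ K * X → ∀ g ∈ S, X ^ ε < g → g < X ^ (1 - ε) →
      |I Z (2 * Z) g - q * g * Z| ≤ η * g * Z := by
  obtain ⟨Z₀, hZ⟩ := eventually_atTop.1 (hS (ε / 2) (by linarith) (by linarith) η hη)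
  have hK0 : 0 < K := by linarith
  filter_upwards [eventually_ge_atTop (K * max Z₀ 1), eventually_ge_atTop K,
    (tendsto_rpow_atTop (show 0 < ε / 2 by linarith)).eventually (eventually_ge_atTop K),
    eventually_ge_atTop 1] with X h1 h2 h3 h4 Z hZ1 hZ2 g hg hg1 hg2
  have hX : 0 < X := by linarith
  have hZm : max Z₀ 1 ≤ Z := by
    refine le_trans ?_ hZ1
    rw [le_div_iff₀ hK0]; linarith
  have hZ0 : Z₀ ≤ Z := le_trans (le_max_left _ _) hZm
  have hZp : 0 < Z := lt_of_lt_of_le one_pos (le_trans (le_max_right _ _) hZm)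
  apply hZ Z hZ0 g hg
  · refine lt_of_le_of_lt ?_ hg1
    have e1 : Z ^ (ε / 2) ≤ (K * X) ^ (ε / 2) := Real.rpow_le_rpow hZp.le hZ2 (by linarith)
    have e2 : (K * X) ^ (ε / 2) ≤ (X * X) ^ (ε / 2) :=
      Real.rpow_le_rpow (by positivity) (mul_le_mul_of_nonneg_right h2 hX.le) (by linarith)
    have e3 : (X * X) ^ (ε / 2) = X ^ ε := by
      rw [Real.mul_rpow hX.le hX.le, ← Real.rpow_add hX]; congr 1; ring
    linarith
  · refine lt_of_lt_of_le hg2 ?_
    have e1 : (X / K) ^ (1 - ε / 2) ≤ Z ^ (1 - ε / 2) :=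
      Real.rpow_le_rpow (by positivity) hZ1 (by linarith)
    refine le_trans ?_ e1
    rw [Real.div_rpow hX.le hK0.le, le_div_iff₀ (Real.rpow_pos_of_pos hK0 _)]
    have e2 : K ^ (1 - ε / 2) ≤ K := by
      have := Real.rpow_le_rpow_of_exponent_le hK (show 1 - ε / 2 ≤ 1 by linarith)
      rwa [Real.rpow_one] at this
    have e3 : X ^ (1 - ε / 2) = X ^ (1 - ε) * X ^ (ε / 2) := by
      rw [← Real.rpow_add hX]; congr 1; ring
    rw [e3]
    exact mul_le_mul_of_nonneg_left (e2.trans h3) (Real.rpow_nonneg hX.le _)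

/-- shifted windows with lengths in `S` -/
theorem short_le {S : Set ℝ} (hS : Unif S) {ε : ℝ} (hε : 0 < ε) (hε1 : ε < 1 / 2) :
    ∀ᶠ X : ℝ in atTop, ∀ h ∈ S, X ^ ε < h → h < X ^ (1 - ε) → ∀ s : ℝ, |s| ≤ X / 2 →
      ∫ x in X..2 * X, (M (x + s) h) ^ 2 ≤ 7 * h * X := by
  filter_upwards [unif2 hS hε hε1 one_pos (K := 2) (by norm_num), eventually_gt_atTop 0]
    with X h1 hX h hh hh1 hh2 s hs
  have hh0 : 0 < h := lt_of_le_of_lt (Real.rpow_nonneg hX.le _) hh1
  rw [shift_eq]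
  rw [abs_le] at hs
  have e0 : I (X + s) (2 * X + s) h ≤ I (X / 2) (4 * X) h := I_mono hh0.le (by linarith) (by linarith)
  have e1 := h1 (X / 2) (by linarith) (by linarith) h hh hh1 hh2
  have e2 := h1 X (by linarith) (by linarith) h hh hh1 hh2
  have e3 := h1 (2 * X) (by linarith) (by linarith) h hh hh1 hh2
  rw [abs_le] at e1 e2 e3
  have a1 := I_add hh0.le (X / 2) (2 * (X / 2)) (2 * X)
  have a2 := I_add hh0.le (X / 2) (2 * X) (2 * (2 * X))
  rw [show 2 * (X / 2) = X by ring] at a1 e1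
  rw [show 2 * (2 * X) = 4 * X by ring] at a2 e3
  have hq := q_le
  have hhX : 0 < h * X := mul_pos hh0 hX
  have hqh : q * h * X ≤ h * X := by nlinarith
  nlinarith [e1.2, e2.2, e3.2]

/-- one step of the induction for the edges -/
theorem edge_step {g η y r p : ℝ} (hg : 0 < g) (hη : 0 < η) (hr : 0 ≤ r) (hp : 0 < p)
    (w1 : |I (y * p) (2 * (y * p)) g - q * g * (y * p)| ≤ η * g * (y * p))
    (w2 : |I ((y - r) * p) (2 * ((y - r) * p)) g - q * g * ((y - r) * p)| ≤ η * g * ((y - r) * p)) :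
    I (2 * ((y - r) * p)) (2 * (y * p)) g ≤ I ((y - r) * p) (y * p) g + (g * r + 2 * η * g * y) * p := by
  rw [abs_le] at w1 w2
  have hq := q_le
  have hq0 := q_pos
  have a1 := I_add hg.le ((y - r) * p) (2 * ((y - r) * p)) (2 * (y * p))
  have a2 := I_add hg.le ((y - r) * p) (y * p) (2 * (y * p))
  have hgr : q * (g * (r * p)) ≤ g * (r * p) := by
    have : 0 ≤ g * (r * p) := by positivity
    nlinarith
  have hgy : 0 ≤ η * g * (r * p) := by positivity
  have e1 : q * g * (y * p) - q * g * ((y - r) * p) = q * (g * (r * p)) := by ring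
  have e2 : η * g * ((y - r) * p) = η * g * (y * p) - η * g * (r * p) := by ring
  have e3 : (g * r + 2 * η * g * y) * p = g * (r * p) + 2 * (η * g * (y * p)) := by ring
  rw [e3]
  linarith [w1.2, w2.1]

theorem edge_ind {g η y r : ℝ} (hg : 0 < g) (hη : 0 < η) (hr : 0 ≤ r) (J : ℕ)
    (w : ∀ j : ℕ, j ≤ J → ∀ z : ℝ, z = y ∨ z = y - r →
      |I (z * (1 / 2) ^ j) (2 * (z * (1 / 2) ^ j)) g - q * g * (z * (1 / 2) ^ j)| ≤
        η * g * (z * (1 / 2) ^ j)) :
    I (y - r) y g ≤ I ((y - r) * (1 / 2) ^ J) (y * (1 / 2) ^ J) g +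
      (g * r + 2 * η * g * y) * (1 - (1 / 2) ^ J) := by
  induction J with
  | zero => simp
  | succ j ih =>
    have h2 := ih fun i hi => w i (by omega)
    have h3 := edge_step hg hη hr (show (0 : ℝ) < (1 / 2) ^ (j + 1) by positivity)
      (w (j + 1) le_rfl y (Or.inl rfl)) (w (j + 1) le_rfl (y - r) (Or.inr rfl))
    have t1 : 2 * (y * (1 / 2) ^ (j + 1)) = y * (1 / 2) ^ j := by rw [pow_succ]; ring
    have t2 : 2 * ((y - r) * (1 / 2) ^ (j + 1)) = (y - r) * (1 / 2) ^ j := by rw [pow_succ]; ring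
    rw [t1, t2] at h3
    have e3 : (g * r + 2 * η * g * y) * (1 - (1 / 2) ^ (j + 1)) =
        (g * r + 2 * η * g * y) * (1 - (1 / 2) ^ j) + (g * r + 2 * η * g * y) * (1 / 2) ^ (j + 1) := by
      rw [pow_succ]; ring
    rw [e3]
    linarith

theorem edge_last {g η y r p : ℝ} (hg : 0 < g) (hη : 0 < η) (hη1 : η ≤ 1) (hr : 0 ≤ r) (hry : r ≤ y / 2)
    (hp : 0 < p)
    (w : |I ((y - r) * p) (2 * ((y - r) * p)) g - q * g * ((y - r) * p)| ≤ η * g * ((y - r) * p)) :
    I ((y - r) * p) (y * p) g ≤ 2 * (g * y) * p := by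
  rw [abs_le] at w
  have hq := q_le
  have hq0 := q_pos
  have h4 : I ((y - r) * p) (y * p) g ≤ I ((y - r) * p) (2 * ((y - r) * p)) g := by
    apply I_mono hg.le le_rfl
    have : y ≤ 2 * (y - r) := by linarith
    have := mul_le_mul_of_nonneg_right this hp.le
    linarith
  have h8 : 0 ≤ g * ((y - r) * p) := mul_nonneg hg.le (mul_nonneg (by linarith) hp.le)
  have h9 : g * ((y - r) * p) ≤ g * (y * p) :=
    mul_le_mul_of_nonneg_left (mul_le_mul_of_nonneg_right (by linarith) hp.le) hg.le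
  have h10 : q * g * ((y - r) * p) ≤ g * ((y - r) * p) := by nlinarith
  have h11 : η * g * ((y - r) * p) ≤ g * ((y - r) * p) := by nlinarith
  have e : 2 * (g * y) * p = 2 * (g * (y * p)) := by ring
  rw [e]
  linarith [w.2]

/-- short edges -/
theorem edge {S : Set ℝ} (hS : Unif S) {ε : ℝ} (hε : 0 < ε) (hε1 : ε < 1 / 2) {τ : ℝ} (hτ : 0 < τ) :
    ∃ δ : ℝ, 0 < δ ∧ ∀ᶠ X : ℝ in atTop, ∀ g ∈ S, X ^ ε < g → g < X ^ (1 - ε) →
      ∀ y : ℝ, X ≤ y → y ≤ 2 * X → ∀ r : ℝ, 0 ≤ r → r ≤ δ * X → I (y - r) y g ≤ τ * g * X := by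
  obtain ⟨J, hJ⟩ := exists_pow_lt_of_lt_one (show 0 < τ / 12 by linarith) (show (1 / 2 : ℝ) < 1 by norm_num)
  set δ : ℝ := min (τ / 3) (1 / 2) with hδ_def
  have hδ : 0 < δ := lt_min (by linarith) (by norm_num)
  have hδ1 : δ ≤ τ / 3 := min_le_left _ _
  have hδ2 : δ ≤ 1 / 2 := min_le_right _ _
  set η : ℝ := min (τ / 12) 1 with hη_def
  have hη : 0 < η := lt_min (by linarith) one_pos
  have hη1 : η ≤ τ / 12 := min_le_left _ _
  have hη2 : η ≤ 1 := min_le_right _ _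
  refine ⟨δ, hδ, ?_⟩
  filter_upwards [unif2 hS hε hε1 hη (K := 2 ^ (J + 2)) (one_le_pow₀ (by norm_num)),
    eventually_gt_atTop 0] with X h1 hX g hg hg1 hg2 y hy1 hy2 r hr1 hr2
  have hg0 : 0 < g := lt_of_le_of_lt (Real.rpow_nonneg hX.le _) hg1
  have hry : r ≤ y / 2 := by
    have : δ * X ≤ 1 / 2 * X := mul_le_mul_of_nonneg_right hδ2 hX.le
    linarith
  have hy0 : 0 < y := by linarith
  have hp2 : ∀ j : ℕ, (0 : ℝ) < (1 / 2) ^ j := fun j => by positivity
  have hscale : ∀ j : ℕ, j ≤ J → ∀ z : ℝ, z = y ∨ z = y - r →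
      |I (z * (1 / 2) ^ j) (2 * (z * (1 / 2) ^ j)) g - q * g * (z * (1 / 2) ^ j)| ≤
        η * g * (z * (1 / 2) ^ j) := by
    intro j hj z hz
    have hz1 : y / 2 ≤ z := by rcases hz with h | h <;> linarith
    have hz2 : z ≤ y := by rcases hz with h | h <;> linarith
    have hpj : (1 / 2 : ℝ) ^ (J + 1) ≤ (1 / 2) ^ j :=
      pow_le_pow_of_le_one (by norm_num) (by norm_num) (by omega)
    have hpj1 : (1 / 2 : ℝ) ^ j ≤ 1 := pow_le_one₀ (by norm_num) (by norm_num)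
    apply h1 _ _ _ g hg hg1 hg2
    · have e1 : X / 2 ^ (J + 2) = X / 2 * (1 / 2) ^ (J + 1) := by
        rw [pow_succ, one_div, inv_pow]; field_simp
      rw [e1]
      exact mul_le_mul (by linarith) hpj (hp2 _).le (by linarith)
    · have e2 : z * (1 / 2) ^ j ≤ z * 1 := mul_le_mul_of_nonneg_left hpj1 (by linarith)
      have e3 : (2 : ℝ) ≤ 2 ^ (J + 2) := by
        calc (2 : ℝ) = 2 ^ 1 := by norm_num
          _ ≤ 2 ^ (J + 2) := pow_le_pow_right₀ (by norm_num) (by omega)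
      have := mul_le_mul_of_nonneg_right e3 hX.le
      linarith
  have h3 := edge_ind hg0 hη hr1 J hscale
  have h5 := edge_last hg0 hη hη2 hr1 hry (hp2 J) (hscale J le_rfl (y - r) (Or.inr rfl))
  have hBn : 0 ≤ g * r + 2 * η * g * y := by positivity
  have h10 : (g * r + 2 * η * g * y) * (1 - (1 / 2) ^ J) ≤ g * r + 2 * η * g * y := by
    have := mul_nonneg hBn (hp2 J).le
    linarith
  have hgX : 0 < g * X := mul_pos hg0 hX
  have h12 : g * y ≤ 2 * (g * X) := by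
    have := mul_le_mul_of_nonneg_left hy2 hg0.le
    linarith
  have f1 : 2 * (g * y) * (1 / 2) ^ J ≤ τ / 3 * (g * X) := by
    have h11 : g * y * (1 / 2) ^ J ≤ 2 * (g * X) * (τ / 12) :=
      mul_le_mul h12 hJ.le (hp2 J).le (by positivity)
    linarith
  have f2 : g * r ≤ τ / 3 * (g * X) := by
    have h13 : r ≤ τ / 3 * X := hr2.trans (mul_le_mul_of_nonneg_right hδ1 hX.le)
    have := mul_le_mul_of_nonneg_left h13 hg0.le
    linarith
  have f3 : 2 * η * g * y ≤ τ / 3 * (g * X) := by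
    have h13 : η * (g * y) ≤ τ / 12 * (2 * (g * X)) :=
      mul_le_mul hη1 h12 (by positivity) (by linarith)
    linarith
  linarith

end Pool.Agent.H127.GV
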