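import Pool.Agent.H127.GV.Basic

/-!
# The variance: from the lengths in `S` to all lengths
-/

set_option autoImplicit false

namespace Pool.Agent.H127.GV

open MeasureTheory Filter Topology Set Pool.Agent.H127.GL

theorem ev_range {p : ℝ → Prop} (hp : ∀ᶠ y in atTop, p y) {ε : ℝ} (hε : 0 < ε) :
    ∀ᶠ X : ℝ in atTop, ∀ H : ℝ, X ^ ε < H → p H := by
  have h := (tendsto_rpow_atTop hε).eventually (eventually_forall_ge_atTop.2 hp)
  filter_upwards [h] with X hX H hH
  exact hX H hH.le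

/-- comparison of the squares -/
theorem sq_bounds {X g R l : ℝ} (hX : 0 < X) (hg : 0 ≤ g) (hR : 0 ≤ R) (hl : 0 < l) :
    |I X (2 * X) (g + R) - I (X - R / 2) (2 * X - R / 2) g| ≤
      l * I (X - R / 2) (2 * X - R / 2) g +
        (1 + 1 / l) * (2 * (∫ x in X..2 * X, (M (x + g / 2) R) ^ 2) + 2 * X) := by
  have hA : ∫ x in X..2 * X, (M (x + -(R / 2)) g) ^ 2 = I (X - R / 2) (2 * X - R / 2) g := by
    rw [shift_eq]; rfl
  have hXX : X ≤ 2 * X := by linarith
  have iA := sq_int hg (-(R / 2)) X (2 * X)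
  have iB := sq_int hR (g / 2) X (2 * X)
  have iH := sq_int0 (add_nonneg hg hR) X (2 * X)
  have pw : ∀ x : ℝ, |M x (g + R) ^ 2 - M (x + -(R / 2)) g ^ 2| ≤
      l * M (x + -(R / 2)) g ^ 2 + (1 + 1 / l) * (2 * M (x + g / 2) R ^ 2 + 2) := by
    intro x
    have hs := M_split (x := x) hg hR
    rw [show x - R / 2 = x + -(R / 2) by ring] at hs
    set a := M (x + -(R / 2)) g
    set b := M (x + g / 2) R
    set m := M x (g + R)
    set d := m - a with hd
    have hE : |d - b| ≤ 1 := by rw [hd]; exact hs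
    have hE2 : (d - b) ^ 2 ≤ 1 := by
      rw [← sq_abs]; exact pow_le_one₀ (abs_nonneg _) hE
    have hd2 : d ^ 2 ≤ 2 * b ^ 2 + 2 := by nlinarith [sq_nonneg (d - 2 * b)]
    have hm : m ^ 2 - a ^ 2 = 2 * a * d + d ^ 2 := by rw [hd]; ring
    have h1 : |2 * a * d| ≤ l * a ^ 2 + 1 / l * d ^ 2 := by
      have hl' : 0 < 1 / l := by positivity
      have e1 : l * a ^ 2 + 1 / l * d ^ 2 - 2 * a * d = 1 / l * (l * a - d) ^ 2 := by
        field_simp; ring
      have e2 : l * a ^ 2 + 1 / l * d ^ 2 + 2 * a * d = 1 / l * (l * a + d) ^ 2 := by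
        field_simp; ring
      have p1 : 0 ≤ 1 / l * (l * a - d) ^ 2 := by positivity
      have p2 : 0 ≤ 1 / l * (l * a + d) ^ 2 := by positivity
      rw [abs_le]; constructor <;> linarith
    rw [hm]
    have h2 : |2 * a * d + d ^ 2| ≤ |2 * a * d| + d ^ 2 := by
      refine le_trans (abs_add_le _ _) ?_
      rw [abs_of_nonneg (sq_nonneg d)]
    have h3 : (1 + 1 / l) * d ^ 2 ≤ (1 + 1 / l) * (2 * b ^ 2 + 2) :=
      mul_le_mul_of_nonneg_left hd2 (by positivity)
    have h4 : (1 + 1 / l) * d ^ 2 = d ^ 2 + 1 / l * d ^ 2 := by ring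
    linarith
  have hint : IntervalIntegrable (fun x => l * M (x + -(R / 2)) g ^ 2 +
      (1 + 1 / l) * (2 * M (x + g / 2) R ^ 2 + 2)) volume X (2 * X) :=
    (iA.const_mul l).add (((iB.const_mul 2).add intervalIntegrable_const).const_mul _)
  have key : |∫ x in X..2 * X, (M x (g + R) ^ 2 - M (x + -(R / 2)) g ^ 2)| ≤
      ∫ x in X..2 * X, (l * M (x + -(R / 2)) g ^ 2 +
      (1 + 1 / l) * (2 * M (x + g / 2) R ^ 2 + 2)) := by
    have := intervalIntegral.norm_integral_le_of_norm_le hXX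
      (f := fun x => M x (g + R) ^ 2 - M (x + -(R / 2)) g ^ 2)
      (Eventually.of_forall fun x _ => by rw [Real.norm_eq_abs]; exact pw x) hint
    rwa [Real.norm_eq_abs] at this
  rw [intervalIntegral.integral_sub iH iA, hA,
    intervalIntegral.integral_add (iA.const_mul l) (((iB.const_mul 2).add intervalIntegrable_const).const_mul _),
    intervalIntegral.integral_const_mul, intervalIntegral.integral_const_mul,
    intervalIntegral.integral_add (iB.const_mul 2) intervalIntegrable_const,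
    intervalIntegral.integral_const_mul, intervalIntegral.integral_const, hA, smul_eq_mul] at key
  have e : (2 * X - X) * 2 = 2 * X := by ring
  rw [e] at key
  exact key

theorem core_alg {X g R A2 Wg IH Jr l K τ τ₁ ρ : ℝ} (hX : 0 < X) (hg : 0 < g) (hR : 0 ≤ R) (hl : 0 < l)
    (hl1 : l ≤ τ / 12) (hτ₁ : 0 < τ₁) (hτ₁a : τ₁ ≤ τ / 8) (hτ₁b : τ₁ ≤ 1) (hK : 0 < K)
    (hρ1 : ρ ≤ τ / 4) (hKρ : K * ρ ≤ τ / 16) (hAW : |A2 - Wg| ≤ τ₁ * g * X)
    (hW : |Wg - q * g * X| ≤ τ₁ * g * X) (hRH : R ≤ ρ * (g + R)) (hone : 1 ≤ ρ * (g + R))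
    (hJ : Jr ≤ ρ * X * (g + R)) (sb : |IH - A2| ≤ l * A2 + K * (2 * Jr + 2 * X)) :
    |IH - q * (g + R) * X| ≤ τ * (g + R) * X := by
  have hq := q_le
  have hq0 := q_pos
  have hHp : 0 < g + R := by linarith
  obtain ⟨T, hT⟩ : ∃ T, T = (g + R) * X := ⟨_, rfl⟩
  have hT0 : 0 < T := by rw [hT]; exact mul_pos hHp hX
  have hgT : g * X ≤ T := by rw [hT]; exact mul_le_mul_of_nonneg_right (by linarith) hX.le
  have hgX0 : 0 < g * X := mul_pos hg hX
  have t1 : τ₁ * g * X ≤ τ₁ * T := by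
    rw [mul_assoc]; exact mul_le_mul_of_nonneg_left hgT hτ₁.le
  have t2 : q * g * X ≤ T := by
    rw [mul_assoc]
    calc q * (g * X) ≤ 1 * (g * X) := mul_le_mul_of_nonneg_right hq hgX0.le
      _ ≤ T := by linarith
  have t3 : τ₁ * T ≤ 1 * T := mul_le_mul_of_nonneg_right hτ₁b hT0.le
  rw [abs_le] at hAW hW sb
  have hA2le : A2 ≤ 3 * T := by linarith [hAW.2, hW.2]
  have s1 : l * A2 ≤ τ / 4 * T := by
    have h3 : l * A2 ≤ l * (3 * T) := mul_le_mul_of_nonneg_left hA2le hl.le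
    have h4 : l * (3 * T) ≤ τ / 12 * (3 * T) := mul_le_mul_of_nonneg_right hl1 (by linarith)
    linarith
  have hX1 : X ≤ ρ * T := by
    have := mul_le_mul_of_nonneg_right hone hX.le
    rw [hT]; linarith
  have hJ' : Jr ≤ ρ * T := by rw [hT]; linarith
  have s2 : K * (2 * Jr + 2 * X) ≤ τ / 4 * T := by
    have h3 : K * (2 * Jr + 2 * X) ≤ K * (4 * (ρ * T)) :=
      mul_le_mul_of_nonneg_left (by linarith) hK.le
    have h5 := mul_le_mul_of_nonneg_right hKρ hT0.le
    have h6 : K * (4 * (ρ * T)) = 4 * (K * ρ * T) := by ring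
    rw [h6] at h3
    linarith
  have s3 : q * g * X - q * (g + R) * X = -(q * (R * X)) := by ring
  have s3' : q * (R * X) ≤ τ / 4 * T := by
    have h4 : q * (R * X) ≤ 1 * (R * X) := mul_le_mul_of_nonneg_right hq (by positivity)
    have h5 : R * X ≤ ρ * (g + R) * X := mul_le_mul_of_nonneg_right hRH hX.le
    have h6 : ρ * T ≤ τ / 4 * T := mul_le_mul_of_nonneg_right hρ1 hT0.le
    have h7 : ρ * (g + R) * X = ρ * T := by rw [hT]; ring
    linarith
  have s3'' : 0 ≤ q * (R * X) := by positivity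
  have s4 : τ₁ * T ≤ τ / 8 * T := mul_le_mul_of_nonneg_right hτ₁a hT0.le
  have e : τ * (g + R) * X = τ * T := by rw [hT]; ring
  rw [e, abs_le]
  constructor <;> linarith [sb.1, sb.2, hAW.1, hAW.2, hW.1, hW.2]

/-- **The main step.** -/
theorem core {S : Set ℝ} (hS : Unif S) {ε : ℝ} (hε : 0 < ε) (hε1 : ε < 1 / 2) {τ : ℝ} (hτ : 0 < τ) :
    ∃ ρ : ℝ, 0 < ρ ∧ ρ ≤ 1 ∧ ∀ᶠ X : ℝ in atTop, ∀ g R : ℝ, g ∈ S → X ^ ε < g → g < X ^ (1 - ε) →
      0 ≤ R → R ≤ ρ * (g + R) → 1 / ρ ≤ g + R → g + R ≤ ρ * X →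
      ∫ x in X..2 * X, (M (x + g / 2) R) ^ 2 ≤ ρ * X * (g + R) →
      |I X (2 * X) (g + R) - q * (g + R) * X| ≤ τ * (g + R) * X := by
  set l : ℝ := min (τ / 12) 1 with hl_def
  have hl : 0 < l := lt_min (by linarith) one_pos
  have hl1 : l ≤ τ / 12 := min_le_left _ _
  set τ₁ : ℝ := min (τ / 8) 1 with hτ₁_def
  have hτ₁ : 0 < τ₁ := lt_min (by linarith) one_pos
  have hτ₁a : τ₁ ≤ τ / 8 := min_le_left _ _
  have hτ₁b : τ₁ ≤ 1 := min_le_right _ _
  set K : ℝ := 1 + 1 / l with hK_def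
  have hK : 0 < K := by positivity
  obtain ⟨δ, hδ, hedge⟩ := edge hS hε hε1 hτ₁
  set ρ : ℝ := min (min (τ / 4) (τ / (16 * K))) (min δ 1) with hρ_def
  have hρ : 0 < ρ := lt_min (lt_min (by linarith) (by positivity)) (lt_min hδ one_pos)
  have hρ1 : ρ ≤ τ / 4 := le_trans (min_le_left _ _) (min_le_left _ _)
  have hρ2 : ρ ≤ τ / (16 * K) := le_trans (min_le_left _ _) (min_le_right _ _)
  have hρ3 : ρ ≤ δ := le_trans (min_le_right _ _) (min_le_left _ _)
  have hρ4 : ρ ≤ 1 := le_trans (min_le_right _ _) (min_le_right _ _)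
  refine ⟨ρ, hρ, hρ4, ?_⟩
  filter_upwards [hedge, hS ε hε hε1 τ₁ hτ₁, eventually_gt_atTop 0] with X h1 h2 hX g R hg hg1 hg2
    hR hRH hH1 hHX hJ
  have hg0 : 0 < g := lt_of_le_of_lt (Real.rpow_nonneg hX.le _) hg1
  have hHp : 0 < g + R := by linarith
  have hRX : R / 2 ≤ δ * X := by
    have a1 : ρ * (g + R) ≤ 1 * (g + R) := mul_le_mul_of_nonneg_right hρ4 hHp.le
    have a2 : ρ * X ≤ δ * X := mul_le_mul_of_nonneg_right hρ3 hX.le
    linarith
  have e1 := h1 g hg hg1 hg2 X le_rfl (by linarith) (R / 2) (by linarith) hRX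
  have e2 := h1 g hg hg1 hg2 (2 * X) (by linarith) le_rfl (R / 2) (by linarith) hRX
  have e1' := I_nonneg (a := X - R / 2) (b := X) g (by linarith)
  have e2' := I_nonneg (a := 2 * X - R / 2) (b := 2 * X) g (by linarith)
  have w := h2 g hg hg1 hg2
  have a1 := I_add hg0.le (X - R / 2) X (2 * X)
  have a2 := I_add hg0.le (X - R / 2) (2 * X - R / 2) (2 * X)
  have sb := sq_bounds hX hg0.le hR hl
  have hAW : |I (X - R / 2) (2 * X - R / 2) g - I X (2 * X) g| ≤ τ₁ * g * X := by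
    rw [abs_le]; constructor <;> linarith
  have hone : 1 ≤ ρ * (g + R) := by rw [div_le_iff₀ hρ] at hH1; linarith
  have hKρ : K * ρ ≤ τ / 16 := by
    rw [le_div_iff₀ (by positivity)] at hρ2
    linarith
  exact core_alg hX hg0 hR hl hl1 hτ₁ hτ₁a hτ₁b hK hρ1 hKρ hAW w hRH hone hJ sb

/-- **Short windows, by induction.** -/
theorem short_ind {S : Set ℝ} (hS : Unif S) {c : ℝ} (hc0 : 0 < c) (hc1 : c < 1)
    (hG : Gaps c (fun _ => S)) {ε : ℝ} (hε : 0 < ε) (hε1 : ε < 1 / 2) :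
    ∀ n : ℕ, ∃ C : ℝ, 0 < C ∧ ∀ᶠ X : ℝ in atTop, ∀ H : ℝ, X ^ ε < H → H < X ^ (1 - ε) →
      ∀ κ : ℝ, κ ≤ 1 → κ * (1 - c) ^ n ≤ 1 / 4 → ∀ R : ℝ, 0 ≤ R → R ≤ H ^ κ →
      ∀ s : ℝ, |s| + n * H ≤ X / 2 →
        ∫ x in X..2 * X, (M (x + s) R) ^ 2 ≤ C * X * (H ^ κ + H ^ (1 / 2 : ℝ)) := by
  -- very short windows
  have tiny : ∀ X H κ R s : ℝ, 0 < X → 1 ≤ H → 0 ≤ R → R ≤ H ^ (1 / 4 : ℝ) →
      ∫ x in X..2 * X, (M (x + s) R) ^ 2 ≤ 4 * X * (H ^ κ + H ^ (1 / 2 : ℝ)) := by
    intro X H κ R s hX hH hR hRH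
    have h1 : (1 : ℝ) ≤ H ^ (1 / 4 : ℝ) := Real.one_le_rpow hH (by norm_num)
    have h2 : H ^ (1 / 4 : ℝ) * H ^ (1 / 4 : ℝ) = H ^ (1 / 2 : ℝ) := by
      rw [← Real.rpow_add (by linarith)]; norm_num
    have h3 : ∀ x : ℝ, (M (x + s) R) ^ 2 ≤ 4 * H ^ (1 / 2 : ℝ) := by
      intro x
      have h4 : |M (x + s) R| ≤ 2 * H ^ (1 / 4 : ℝ) := (M_abs hR).trans (by linarith)
      rw [← sq_abs, ← h2]
      have := pow_le_pow_left₀ (abs_nonneg _) h4 2
      linarith
    have h5 := intervalIntegral.integral_mono_on (by linarith : X ≤ 2 * X) (sq_int hR s X (2 * X))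
      (intervalIntegrable_const (c := 4 * H ^ (1 / 2 : ℝ))) (fun x _ => h3 x)
    rw [intervalIntegral.integral_const, smul_eq_mul] at h5
    have h6 : 0 ≤ H ^ κ := Real.rpow_nonneg (by linarith) _
    have h7 : 0 ≤ X * H ^ κ := mul_nonneg hX.le h6
    linarith
  intro n
  induction n with
  | zero =>
    refine ⟨4, by norm_num, ?_⟩
    filter_upwards [eventually_gt_atTop 0, ev_range (eventually_ge_atTop 1) hε] with X hX hX1
      H hH1 hH2 κ _ hκ2 R hR1 hR2 s _
    rw [pow_zero, mul_one] at hκ2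
    have hH := hX1 H hH1
    exact tiny X H κ R s hX hH hR1 (hR2.trans (Real.rpow_le_rpow_of_exponent_le hH hκ2))
  | succ n ih =>
    obtain ⟨C, hC, hCn⟩ := ih
    refine ⟨24 + 3 * C, by positivity, ?_⟩
    have hr4 : 0 < ε / 4 := by linarith
    filter_upwards [hCn, eventually_ge_atTop 1, ev_range (eventually_ge_atTop 1) hε,
      hG (ε / 4) hr4, short_le hS (show 0 < ε / 8 by linarith) (by linarith),
      ev_range (pow_small (κ := 1 - c) (δ := 1 / 2) (by linarith) (by norm_num)) (show 0 < ε / 8 by linarith),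
      half_range (ε := ε / 4) hr4 (b := 1 / 2) (by norm_num)] with
      X h1 hXge hX1 hgap hshort hpow hhalf H hH1 hH2 κ hκ1 hκ2 R hR1 hR2 s hs
    have hX : 0 < X := by linarith
    have hH := hX1 H hH1
    have hH0 : 0 < H := by linarith
    rcases le_or_gt R (H ^ (1 / 4 : ℝ)) with hlt | hgt
    · have := tiny X H κ R s hX hH hR1 hlt
      refine this.trans ?_
      have h5 : 0 ≤ X * (H ^ κ + H ^ (1 / 2 : ℝ)) := by positivity
      have h6 : 4 * X * (H ^ κ + H ^ (1 / 2 : ℝ)) = 4 * (X * (H ^ κ + H ^ (1 / 2 : ℝ))) := by ring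
      have h7 : (24 + 3 * C) * X * (H ^ κ + H ^ (1 / 2 : ℝ)) =
        (24 + 3 * C) * (X * (H ^ κ + H ^ (1 / 2 : ℝ))) := by ring
      rw [h6, h7]
      exact mul_le_mul_of_nonneg_right (by linarith) h5
    · have hRlow : X ^ (ε / 4) < R := by
        refine lt_of_le_of_lt ?_ hgt
        have h2 := Real.rpow_le_rpow (by positivity) hH1.le (by norm_num : (0 : ℝ) ≤ 1 / 4)
        rwa [← Real.rpow_mul hX.le, show ε * (1 / 4) = ε / 4 by ring] at h2
      have hHκ : H ^ κ ≤ H := by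
        have := Real.rpow_le_rpow_of_exponent_le hH hκ1
        rwa [Real.rpow_one] at this
      have hRH : R ≤ H := hR2.trans hHκ
      have hXX : X ^ (1 - ε) ≤ X := by
        have := Real.rpow_le_rpow_of_exponent_le hXge (show 1 - ε ≤ 1 by linarith)
        rwa [Real.rpow_one] at this
      have hR0 : 0 < R := lt_of_le_of_lt (Real.rpow_nonneg hX.le _) hRlow
      have hRone : 1 ≤ R := le_trans (Real.one_le_rpow hH (by norm_num)) hgt.le
      have hHκ1 : 1 ≤ H ^ κ := hRone.trans hR2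
      obtain ⟨h, hh, hh1, hh2⟩ := hgap R hRlow.le (hRH.trans (hH2.le.trans hXX))
      have hX84 : X ^ (ε / 8) < R := by
        have := hhalf
        rw [show ε / 4 / 2 = ε / 8 by ring] at this
        linarith [Real.rpow_nonneg hX.le (ε / 4)]
      have hR' : R ^ (1 - c) ≤ 1 / 2 * R := hpow R hX84
      have hh3 : R / 2 ≤ h := by linarith
      have hh0 : 0 < h := by linarith
      have hh4 : X ^ (ε / 8) < h := by
        have := hhalf
        rw [show ε / 4 / 2 = ε / 8 by ring] at this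
        linarith
      have hh5 : h < X ^ (1 - ε / 8) := by
        refine lt_of_le_of_lt (hh2.trans hRH) (lt_of_lt_of_le hH2 ?_)
        exact Real.rpow_le_rpow_of_exponent_le hXge (by linarith)
      have hR'0 : 0 ≤ R - h := by linarith
      have hR'1 : R - h ≤ R ^ (1 - c) := by linarith
      have hR'2 : R ^ (1 - c) ≤ (H ^ κ) ^ (1 - c) := Real.rpow_le_rpow hR1 hR2 (by linarith)
      have hκc : (H ^ κ) ^ (1 - c) = H ^ (κ * (1 - c)) := (Real.rpow_mul hH0.le _ _).symm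
      have hκc1 : (H ^ κ) ^ (1 - c) ≤ H ^ κ := by
        have := Real.rpow_le_rpow_of_exponent_le hHκ1 (show 1 - c ≤ 1 by linarith)
        rwa [Real.rpow_one] at this
      have hcast : ((n + 1 : ℕ) : ℝ) = n + 1 := by push_cast; ring
      rw [hcast] at hs
      have hnH : 0 ≤ (n : ℝ) * H := by positivity
      have b1 := hshort h hh hh4 hh5 (s + -((R - h) / 2)) (by
        refine le_trans (abs_add_le _ _) ?_
        rw [abs_neg, abs_of_nonneg (by linarith : 0 ≤ (R - h) / 2)]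
        linarith)
      have b2 := h1 H hH1 hH2 (κ * (1 - c)) (by nlinarith) (by
        rw [mul_assoc, ← pow_succ']; exact hκ2) (R - h) hR'0 (by rw [← hκc]; linarith)
        (s + h / 2) (by
          have := abs_add_le s (h / 2)
          rw [abs_of_nonneg (by linarith : 0 ≤ h / 2)] at this
          linarith)
      have pw : ∀ x : ℝ, (M (x + s) R) ^ 2 ≤ 3 * (M (x + (s + -((R - h) / 2))) h) ^ 2 +
          3 * (M (x + (s + h / 2)) (R - h)) ^ 2 + 3 := by
        intro x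
        have hsplit := M_split (x := x + s) hh0.le hR'0
        rw [show h + (R - h) = R by ring, show x + s - (R - h) / 2 = x + (s + -((R - h) / 2)) by ring,
          show x + s + h / 2 = x + (s + h / 2) by ring] at hsplit
        set a := M (x + (s + -((R - h) / 2))) h
        set b := M (x + (s + h / 2)) (R - h)
        set m := M (x + s) R
        have hE2 : (m - a - b) ^ 2 ≤ 1 := by
          rw [← sq_abs]; exact pow_le_one₀ (abs_nonneg _) hsplit
        nlinarith [sq_nonneg (a - b), sq_nonneg (m - a - b - a), sq_nonneg (m - a - b - b)]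
      have iA := sq_int hh0.le (s + -((R - h) / 2)) X (2 * X)
      have iB := sq_int hR'0 (s + h / 2) X (2 * X)
      have h5 := intervalIntegral.integral_mono_on (by linarith : X ≤ 2 * X) (sq_int hR1 s X (2 * X))
        (((iA.const_mul 3).add (iB.const_mul 3)).add (intervalIntegrable_const (c := (3 : ℝ))))
        (fun x _ => pw x)
      rw [intervalIntegral.integral_add ((iA.const_mul 3).add (iB.const_mul 3)) intervalIntegrable_const,
        intervalIntegral.integral_add (iA.const_mul 3) (iB.const_mul 3),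
        intervalIntegral.integral_const_mul, intervalIntegral.integral_const_mul,
        intervalIntegral.integral_const, smul_eq_mul] at h5
      refine h5.trans ?_
      have hH12 : 1 ≤ H ^ (1 / 2 : ℝ) := Real.one_le_rpow hH (by norm_num)
      have f1 : 7 * h * X ≤ 7 * (X * H ^ κ) := by
        have := mul_le_mul_of_nonneg_right (hh2.trans hR2) hX.le
        linarith
      have f2 : C * X * (H ^ (κ * (1 - c)) + H ^ (1 / 2 : ℝ)) ≤ C * X * (H ^ κ + H ^ (1 / 2 : ℝ)) := by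
        apply mul_le_mul_of_nonneg_left _ (by positivity)
        rw [← hκc]; linarith
      have f3 : X ≤ X * H ^ (1 / 2 : ℝ) := le_mul_of_one_le_right hX.le hH12
      have f4 : 0 ≤ X * H ^ κ := by positivity
      have e : (24 + 3 * C) * X * (H ^ κ + H ^ (1 / 2 : ℝ)) =
        24 * (X * H ^ κ) + 24 * (X * H ^ (1 / 2 : ℝ)) + 3 * (C * X * (H ^ κ + H ^ (1 / 2 : ℝ))) := by ring
      rw [e]
      linarith

end Pool.Agent.H127.GV
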