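import Pool.Agent.H127.GV.Core

/-!
# The variance: the reductions
-/

set_option autoImplicit false

namespace Pool.Agent.H127.GV

open MeasureTheory Filter Topology Set Pool.Agent.H127.GL

/-- the gaps of `S` near `y` are at most `y^(1-c)` -/
def GapsF (c : ℝ) (S : Set ℝ) : Prop :=
  ∀ᶠ y : ℝ in atTop, ∃ h ∈ S, y - y ^ (1 - c) ≤ h ∧ h ≤ y

theorem gapsF_mono {c c' : ℝ} (hcc : c' ≤ c) {S : Set ℝ} (hS : GapsF c S) : GapsF c' S := by
  filter_upwards [hS, eventually_ge_atTop 1] with y h hy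
  obtain ⟨a, ha, h1, h2⟩ := h
  refine ⟨a, ha, ?_, h2⟩
  have := Real.rpow_le_rpow_of_exponent_le hy (show 1 - c ≤ 1 - c' by linarith)
  linarith

theorem gaps_of_gapsF {c : ℝ} {S : Set ℝ} (hS : GapsF c S) : Gaps c (fun _ => S) := by
  intro ε hε
  have h := (tendsto_rpow_atTop hε).eventually (eventually_forall_ge_atTop.2 hS)
  filter_upwards [h] with X hX y hy1 _
  exact hX y hy1

/-- the exceptional lengths fill at most the proportion `θ` of the intervals `[y - δ y, y]` -/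
def SparseF (θ : ℝ) (E : Set ℝ) : Prop :=
  ∀ δ : ℝ, 0 < δ → δ < 1 → ∀ᶠ y : ℝ in atTop,
    volume (E ∩ Icc (y - δ * y) y) ≤ ENNReal.ofReal (θ * (δ * y))

theorem unif_of_gaps {S : Set ℝ} {c : ℝ} (hc0 : 0 < c) (hc1 : c < 1) (hG : Gaps c (fun _ => S))
    (hS : Unif S) : Unif univ := by
  intro ε hε hε1 τ hτ
  obtain ⟨ρ, hρ, hρ1, hcore⟩ := core hS (ε := ε / 2) (by linarith) (by linarith) hτ
  obtain ⟨n, hn⟩ := exists_pow_lt_of_lt_one (show (0 : ℝ) < 1 / 4 by norm_num) (show 1 - c < 1 by linarith)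
  obtain ⟨C, hC, hshort⟩ := short_ind hS hc0 hc1 hG hε hε1 n
  have hn0 : (0 : ℝ) < 2 * ((n : ℝ) + 1) := by positivity
  filter_upwards [hcore, hshort, hG ε hε, eventually_ge_atTop 1,
    ev_range (eventually_ge_atTop 1) hε,
    ev_range (eventually_ge_atTop (1 / ρ)) hε,
    ev_range (pow_small (κ := 1 - c) (δ := ρ) (by linarith) hρ) hε,
    ev_range (pow_small (κ := 1 - c) (δ := 1 / 2) (by linarith) (by norm_num)) hε,
    ev_range (pow_small (κ := 1 - c) (δ := ρ / (2 * C)) (by linarith) (by positivity)) hε,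
    ev_range (pow_small (κ := 1 / 2) (δ := ρ / (2 * C)) (by norm_num) (by positivity)) hε,
    half_range hε (b := 1 / 2) (by norm_num),
    pow_small (κ := 1 - ε) (δ := ρ) (by linarith) hρ,
    pow_small (κ := 1 - ε) (δ := 1 / (2 * ((n : ℝ) + 1))) (by linarith) (by positivity)]
    with X h1 h2 h3 hX e1 e2 e3 e4 e5 e6 e7 e8 e9 H _ hH1 hH2
  have hX0 : 0 < X := by linarith
  have hH : 1 ≤ H := e1 H hH1
  have hH0 : 0 < H := by linarith
  have hHX : H ≤ X := by
    have := Real.rpow_le_rpow_of_exponent_le hX (show 1 - ε ≤ 1 by linarith)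
    rw [Real.rpow_one] at this
    linarith
  obtain ⟨g, hg, hg1, hg2⟩ := h3 H hH1.le hHX
  have k3 := e3 H hH1
  have k4 := e4 H hH1
  have k5 := e5 H hH1
  have k6 := e6 H hH1
  have hghalf : H / 2 ≤ g := by linarith
  have hs : |g / 2| + n * H ≤ X / 2 := by
    rw [abs_of_nonneg (by linarith)]
    have h5 : H ≤ 1 / (2 * ((n : ℝ) + 1)) * X := hH2.le.trans e9
    have h6 : (2 * ((n : ℝ) + 1)) * H ≤ X := by
      have := mul_le_mul_of_nonneg_left h5 hn0.le
      rwa [← mul_assoc, mul_one_div_cancel hn0.ne', one_mul] at this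
    linarith
  have hκ : (1 - c) * (1 - c) ^ n ≤ 1 / 4 := by
    have h0 : 0 < (1 - c) ^ n := pow_pos (by linarith) _
    nlinarith
  have hR0 : 0 ≤ H - g := by linarith
  have hJ := h2 H hH1 hH2 (1 - c) (by linarith) hκ (H - g) hR0 (by linarith) (g / 2) hs
  have hJ' : C * X * (H ^ (1 - c) + H ^ (1 / 2 : ℝ)) ≤ ρ * X * H := by
    have h5 : H ^ (1 - c) + H ^ (1 / 2 : ℝ) ≤ ρ / C * H := by
      have : ρ / C * H = ρ / (2 * C) * H + ρ / (2 * C) * H := by field_simp; ring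
      linarith
    have h6 := mul_le_mul_of_nonneg_left h5 (show 0 ≤ C * X by positivity)
    have h7 : C * X * (ρ / C * H) = ρ * X * H := by field_simp
    linarith
  have hsum : g + (H - g) = H := by ring
  have := h1 g (H - g) hg (by linarith) (lt_of_le_of_lt hg2 (lt_of_lt_of_le hH2
    (Real.rpow_le_rpow_of_exponent_le hX (by linarith)))) hR0 (by rw [hsum]; linarith)
    (by rw [hsum]; exact e2 H hH1) (by rw [hsum]; linarith) (by rw [hsum]; exact hJ.trans hJ')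
  rwa [hsum] at this

theorem unif_of_sparse {E : Set ℝ} {θ : ℝ} (hθ0 : 0 ≤ θ) (hθ : θ < 1 / 2) (hE : SparseF θ E)
    (hS : Unif Eᶜ) : Unif univ := by
  intro ε hε hε1 τ hτ
  obtain ⟨ρ, hρ, hρ1, hcore⟩ := core hS (ε := ε / 2) (by linarith) (by linarith) hτ
  obtain ⟨δ, hδρ⟩ : ∃ δ : ℝ, δ = ρ / 7 := ⟨_, rfl⟩
  have hδ : 0 < δ := by rw [hδρ]; positivity
  have hd3 : δ ≤ 1 / 2 := by rw [hδρ]; linarith
  have hδ2 : 0 < δ / (2 - δ) := div_pos hδ (by linarith)
  have hδ2' : δ / (2 - δ) < 1 := by rw [div_lt_one (by linarith)]; linarith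
  filter_upwards [hcore, short_le hS (show 0 < ε / 2 by linarith) (by linarith),
    ev_range (hE (1 / 2) (by norm_num) (by norm_num)) (show 0 < ε / 2 by linarith),
    ev_range (hE (δ / (2 - δ)) hδ2 hδ2') (show 0 < ε / 2 by linarith),
    eventually_ge_atTop 1, ev_range (eventually_ge_atTop 1) hε,
    ev_range (eventually_ge_atTop (1 / ρ)) hε,
    half_range hε (b := δ / 2) (by linarith),
    pow_small (κ := 1 - ε) (δ := ρ) (by linarith) hρ]
    with X h1 h2 a0 a1 hX e1 e2 e3 e4 H _ hH1 hH2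
  have hX0 : 0 < X := by linarith
  have hH : 1 ≤ H := e1 H hH1
  have hH0 : 0 < H := by linarith
  have hp := mul_pos hδ hH0
  have y0 : X ^ (ε / 2) < δ / 2 * H :=
    lt_of_lt_of_le e3 (mul_le_mul_of_nonneg_left hH1.le (by linarith))
  have y1 : X ^ (ε / 2) < δ * H := by linarith
  have hδH : δ * H ≤ 1 / 2 * H := mul_le_mul_of_nonneg_right hd3 hH0.le
  have y2 : X ^ (ε / 2) < (1 - δ / 2) * H := by linarith
  have b1 := a0 (δ * H) y1
  have b2 := a1 ((1 - δ / 2) * H) y2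
  have ee1 : δ / (2 - δ) * ((1 - δ / 2) * H) = δ / 2 * H := by
    have : (2 - δ) ≠ 0 := by linarith
    field_simp
  rw [ee1] at b2
  obtain ⟨h, ⟨hh1, hh2⟩, hh3, hh4⟩ : ∃ y : ℝ, (δ * H / 2 ≤ y ∧ y ≤ δ * H) ∧ y ∉ E ∧ H - y ∉ E := by
    by_contra hcon
    have hsub : Icc (δ * H - 1 / 2 * (δ * H)) (δ * H) ⊆
        (E ∩ Icc (δ * H - 1 / 2 * (δ * H)) (δ * H)) ∪
          {y : ℝ | H - y ∈ E ∩ Icc ((1 - δ / 2) * H - δ / 2 * H) ((1 - δ / 2) * H)} := by
      intro y hy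
      by_cases hy1 : y ∈ E
      · exact Or.inl ⟨hy1, hy⟩
      · right
        have t1 := hy.1
        have t2 := hy.2
        refine ⟨?_, ?_⟩
        · by_contra hy2
          exact hcon ⟨y, ⟨by linarith, hy.2⟩, hy1, hy2⟩
        · constructor
          · linarith
          · linarith
    have hv := (measure_mono (μ := volume) hsub).trans (measure_union_le _ _)
    rw [refl_vol, Real.volume_Icc] at hv
    have hv2 := hv.trans (add_le_add b1 b2)
    rw [← ENNReal.ofReal_add (by positivity) (by positivity),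
      ENNReal.ofReal_le_ofReal_iff (by positivity)] at hv2
    nlinarith
  have hsum : H - h + h = H := by ring
  have hh0 : 0 < h := by linarith
  have hHle : H ≤ ρ * X := by linarith
  have hHX : H ≤ X := by
    have := mul_le_mul_of_nonneg_right hρ1 hX0.le
    linarith
  have hr : X ^ (1 - ε) ≤ X ^ (1 - ε / 2) := Real.rpow_le_rpow_of_exponent_le hX (by linarith)
  have hJ := h2 h hh3 (by linarith) (by linarith) ((H - h) / 2) (by
    rw [abs_of_nonneg (by linarith)]; linarith)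
  have hJ' : 7 * h * X ≤ ρ * X * H := by
    have h5 : 7 * h ≤ ρ * H := by
      have : ρ * H = 7 * (δ * H) := by rw [hδρ]; ring
      linarith
    have := mul_le_mul_of_nonneg_right h5 hX0.le
    linarith
  have := h1 (H - h) h hh4 (by linarith) (by linarith) hh0.le (by
      rw [hsum]
      have : ρ * H = 7 * (δ * H) := by rw [hδρ]; ring
      linarith)
    (by rw [hsum]; exact e2 H hH1) (by rw [hsum]; exact hHle) (by rw [hsum]; exact hJ.trans hJ')
  rwa [hsum] at this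

/-- the normalised mean square -/
noncomputable def U (X h : ℝ) : ℝ := ((1 / X) * I X (2 * X) h) / (h / (Real.pi ^ 2 / 6))

theorem U_eq {X h : ℝ} (hX : 0 < X) (hh : 0 < h) : I X (2 * X) h - q * h * X = q * h * X * (U X h - 1) := by
  unfold U q
  have : (0 : ℝ) < Real.pi ^ 2 / 6 := by positivity
  field_simp

/-- the asymptotic formula for all functions with values in `S` -/
def LawU (S : Set ℝ) : Prop :=
  ∀ ε : ℝ, 0 < ε → ∀ H : ℝ → ℝ, (∀ᶠ X in atTop, X ^ ε < H X ∧ H X < X ^ (1 - ε)) →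
    (∀ᶠ X in atTop, H X ∈ S) → Tendsto (fun X => U X (H X)) atTop (𝓝 1)

theorem ne_of_half {S : Set ℝ} (hS : ∀ᶠ y : ℝ in atTop, ∃ h ∈ S, y / 2 ≤ h ∧ h ≤ y) {ε : ℝ}
    (hε1 : ε < 1 / 2) : ∀ᶠ X : ℝ in atTop, ∃ g ∈ S, X ^ ε < g ∧ g < X ^ (1 - ε) := by
  filter_upwards [(tendsto_rpow_atTop (show (0 : ℝ) < 1 / 2 by norm_num)).eventually hS,
    (tendsto_rpow_atTop (show 0 < 1 / 2 - ε by linarith)).eventually (eventually_ge_atTop 4),
    eventually_gt_atTop 1] with X h1 h2 hX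
  have hX0 : 0 < X := by linarith
  obtain ⟨g, hg, hg1, hg2⟩ := h1
  refine ⟨g, hg, ?_, ?_⟩
  · have e : X ^ (1 / 2 : ℝ) = X ^ ε * X ^ (1 / 2 - ε) := by
      rw [← Real.rpow_add hX0]; congr 1; ring
    have hp : 0 < X ^ ε := Real.rpow_pos_of_pos hX0 _
    have := mul_le_mul_of_nonneg_left h2 hp.le
    rw [e] at hg1
    linarith
  · exact lt_of_le_of_lt hg2 (Real.rpow_lt_rpow_of_exponent_lt hX (by linarith))

theorem half_of_gaps {S : Set ℝ} {c : ℝ} (hc0 : 0 < c) (hG : GapsF c S) :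
    ∀ᶠ y : ℝ in atTop, ∃ h ∈ S, y / 2 ≤ h ∧ h ≤ y := by
  filter_upwards [hG, pow_small (κ := 1 - c) (δ := 1 / 2) (by linarith) (by norm_num)] with y h1 h2
  obtain ⟨h, hh, hh1, hh2⟩ := h1
  exact ⟨h, hh, by linarith, hh2⟩

theorem half_of_sparse {E : Set ℝ} {θ : ℝ} (hθ : θ < 1 / 2) (hE : SparseF θ E) :
    ∀ᶠ y : ℝ in atTop, ∃ h ∈ Eᶜ, y / 2 ≤ h ∧ h ≤ y := by
  filter_upwards [hE (1 / 2) (by norm_num) (by norm_num), eventually_gt_atTop 0] with y h1 hy
  by_contra hcon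
  have hsub : Icc (y - 1 / 2 * y) y ⊆ E ∩ Icc (y - 1 / 2 * y) y := by
    intro z hz
    refine ⟨?_, hz⟩
    by_contra hz2
    exact hcon ⟨z, hz2, by linarith [hz.1], hz.2⟩
  have hv := (measure_mono (μ := volume) hsub).trans h1
  rw [Real.volume_Icc, ENNReal.ofReal_le_ofReal_iff'] at hv
  rcases hv with hv | hv
  · nlinarith
  · linarith

theorem unif_of_law {S : Set ℝ} (hS : ∀ᶠ y : ℝ in atTop, ∃ h ∈ S, y / 2 ≤ h ∧ h ≤ y) (hL : LawU S) :
    Unif S := by
  intro ε hε hε1 η hη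
  obtain ⟨H, hH⟩ : ∃ H : ℝ → ℝ, ∀ᶠ X in atTop, (H X ∈ S ∧ X ^ ε < H X ∧ H X < X ^ (1 - ε)) ∧
      ((∃ g ∈ S, X ^ ε < g ∧ g < X ^ (1 - ε) ∧ ¬ |I X (2 * X) g - q * g * X| ≤ η * g * X) →
        ¬ |I X (2 * X) (H X) - q * (H X) * X| ≤ η * (H X) * X) := by
    refine Filter.Eventually.choice (r := fun X y => (y ∈ S ∧ X ^ ε < y ∧ y < X ^ (1 - ε)) ∧
      ((∃ g ∈ S, X ^ ε < g ∧ g < X ^ (1 - ε) ∧ ¬ |I X (2 * X) g - q * g * X| ≤ η * g * X) →
        ¬ |I X (2 * X) y - q * y * X| ≤ η * y * X)) ?_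
    filter_upwards [ne_of_half hS hε1] with X hX
    by_cases hb : ∃ g ∈ S, X ^ ε < g ∧ g < X ^ (1 - ε) ∧ ¬ |I X (2 * X) g - q * g * X| ≤ η * g * X
    · obtain ⟨g, hg, h1, h2, h3⟩ := hb
      exact ⟨g, ⟨hg, h1, h2⟩, fun _ => h3⟩
    · obtain ⟨g, hg, h1, h2⟩ := hX
      exact ⟨g, ⟨hg, h1, h2⟩, fun h => absurd h hb⟩
  have hlim := hL ε hε H (hH.mono fun _ h => ⟨h.1.2.1, h.1.2.2⟩) (hH.mono fun _ h => h.1.1)
  have hclose := hlim.eventually (Metric.ball_mem_nhds 1 hη)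
  filter_upwards [hH, hclose, eventually_gt_atTop 0] with X h1 h2 hX g hg hg1 hg2
  by_contra hcon
  apply h1.2 ⟨g, hg, hg1, hg2, hcon⟩
  have hHX : 0 < H X := lt_of_le_of_lt (Real.rpow_nonneg hX.le _) h1.1.2.1
  rw [Real.dist_eq] at h2
  have hqp := q_pos
  have hp : 0 < q * H X * X := by positivity
  rw [U_eq hX hHX, abs_mul, abs_of_pos hp]
  calc q * H X * X * |U X (H X) - 1| ≤ q * H X * X * η := mul_le_mul_of_nonneg_left h2.le hp.le
    _ = q * (η * H X * X) := by ring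
    _ ≤ 1 * (η * H X * X) := mul_le_mul_of_nonneg_right q_le (by positivity)
    _ = η * H X * X := one_mul _

theorem law_of_unif {S : Set ℝ} (hS : Unif S) : LawU S := by
  intro ε hε H hH hHS
  rcases lt_or_ge ε (1 / 2) with hε1 | hε1
  · rw [Metric.tendsto_nhds]
    intro e he
    have hqp := q_pos
    filter_upwards [hS ε hε hε1 (e / 2 * q) (by positivity), hH, hHS, eventually_gt_atTop 0]
      with X h1 h2 h3 hX
    have hHX : 0 < H X := lt_of_le_of_lt (Real.rpow_nonneg hX.le _) h2.1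
    have h4 := h1 (H X) h3 h2.1 h2.2
    have hp : 0 < q * H X * X := by positivity
    rw [U_eq hX hHX, abs_mul, abs_of_pos hp,
      show e / 2 * q * H X * X = q * H X * X * (e / 2) by ring] at h4
    have h5 := le_of_mul_le_mul_left h4 hp
    rw [Real.dist_eq]
    linarith
  · exfalso
    obtain ⟨X, h1, h2⟩ := (hH.and (eventually_ge_atTop 1)).exists
    have := Real.rpow_le_rpow_of_exponent_le h2 (show 1 - ε ≤ ε by linarith)
    linarith [h1.1, h1.2]

theorem law_iff_of_gaps {S : Set ℝ} {c : ℝ} (hc : 0 < c) (hG : GapsF c S) : LawU S ↔ LawU univ := by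
  constructor
  · intro h
    have h0 : 0 < min c (1 / 2) := lt_min hc (by norm_num)
    have h1 : min c (1 / 2) < 1 := lt_of_le_of_lt (min_le_right _ _) (by norm_num)
    exact law_of_unif (unif_of_gaps h0 h1 (gaps_of_gapsF (gapsF_mono (min_le_left _ _) hG))
      (unif_of_law (half_of_gaps hc hG) h))
  · intro h ε hε H hH _
    exact h ε hε H hH (Eventually.of_forall fun _ => mem_univ _)

theorem law_iff_of_sparse {E : Set ℝ} {θ : ℝ} (hθ0 : 0 ≤ θ) (hθ : θ < 1 / 2) (hE : SparseF θ E) :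
    LawU Eᶜ ↔ LawU univ := by
  constructor
  · intro h
    exact law_of_unif (unif_of_sparse hθ0 hθ hE (unif_of_law (half_of_sparse hθ hE) h))
  · intro h ε hε H hH _
    exact h ε hε H hH (Eventually.of_forall fun _ => mem_univ _)

theorem gapsF_pow {m : ℕ} (hm : 1 ≤ m) : GapsF (1 / (2 * (m : ℝ))) {y : ℝ | ∃ j : ℕ, y = (j : ℝ) ^ m} := by
  filter_upwards [gaps_pow hm (1 / 2) (by norm_num), eventually_ge_atTop 1] with y h hy
  apply h y _ le_rfl
  have := Real.rpow_le_rpow_of_exponent_le hy (show (1 / 2 : ℝ) ≤ 1 by norm_num)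
  rwa [Real.rpow_one] at this

end Pool.Agent.H127.GV
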