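import Pool.Agent.H127.GV.Final

/-!
# The variance: from a thin set of scales to all scales
-/

set_option autoImplicit false

namespace Pool.Agent.H127.GV

open MeasureTheory Filter Topology Set Pool.Agent.H127.GL

/-- the asymptotic formula, uniformly for the lengths in `S`, at the scales in `T` -/
def UnifT (T S : Set ℝ) : Prop :=
  ∀ ε : ℝ, 0 < ε → ε < 1 / 2 → ∀ η : ℝ, 0 < η → ∀ᶠ Z : ℝ in atTop, Z ∈ T →
    ∀ g ∈ S, Z ^ ε < g → g < Z ^ (1 - ε) → |I Z (2 * Z) g - q * g * Z| ≤ η * g * Z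

/-- the ratios of consecutive scales tend to `1` -/
def Scales (T : Set ℝ) : Prop :=
  ∀ δ : ℝ, 0 < δ → ∀ᶠ X : ℝ in atTop, ∃ Z ∈ T, X ≤ Z ∧ Z ≤ (1 + δ) * X

theorem unif2T {T S : Set ℝ} (hS : UnifT T S) {ε : ℝ} (hε : 0 < ε) (hε1 : ε < 1 / 2) {η : ℝ} (hη : 0 < η)
    {K : ℝ} (hK : 1 ≤ K) :
    ∀ᶠ X : ℝ in atTop, ∀ Z ∈ T, X / K ≤ Z → Z ≤ K * X → ∀ g ∈ S, X ^ ε < g → g < X ^ (1 - ε) →
      |I Z (2 * Z) g - q * g * Z| ≤ η * g * Z := by
  obtain ⟨Z₀, hZ⟩ := eventually_atTop.1 (hS (ε / 2) (by linarith) (by linarith) η hη)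
  have hK0 : 0 < K := by linarith
  filter_upwards [eventually_ge_atTop (K * max Z₀ 1), eventually_ge_atTop K,
    (tendsto_rpow_atTop (show 0 < ε / 2 by linarith)).eventually (eventually_ge_atTop K),
    eventually_ge_atTop 1] with X h1 h2 h3 h4 Z hZT hZ1 hZ2 g hg hg1 hg2
  have hX : 0 < X := by linarith
  have hZm : max Z₀ 1 ≤ Z := by
    refine le_trans ?_ hZ1
    rw [le_div_iff₀ hK0]; linarith
  have hZ0 : Z₀ ≤ Z := le_trans (le_max_left _ _) hZm
  have hZp : 0 < Z := lt_of_lt_of_le one_pos (le_trans (le_max_right _ _) hZm)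
  apply hZ Z hZ0 hZT g hg
  · refine lt_of_le_of_lt ?_ hg1
    have e1 : Z ^ (ε / 2) ≤ (K * X) ^ (ε / 2) := Real.rpow_le_rpow hZp.le hZ2 (by linarith)
    have e2 : (K * X) ^ (ε / 2) ≤ (X * X) ^ (ε / 2) :=
      Real.rpow_le_rpow (by positivity) (mul_le_mul_of_nonneg_right h2 hX.le) (by linarith)
    have e3 : (X * X) ^ (ε / 2) = X ^ ε := by
      rw [Real.mul_rpow hX.le hX.le, ← Real.rpow_add hX]; congr 1; ring
    linarith
  · refine lt_of_lt_of_le hg2 ?_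
    have e1 : (X / K) ^ (1 - ε / 2) ≤ Z ^ (1 - ε / 2) :=
      Real.rpow_le_rpow (by positivity) hZ1 (by linarith)
    refine le_trans ?_ e1
    rw [Real.div_rpow hX.le hK0.le, le_div_iff₀ (Real.rpow_pos_of_pos hK0 _)]
    have e2 : K ^ (1 - ε / 2) ≤ K := by
      have := Real.rpow_le_rpow_of_exponent_le hK (show 1 - ε / 2 ≤ 1 by linarith)
      rwa [Real.rpow_one] at this
    have e3 : X ^ (1 - ε / 2) = X ^ (1 - ε) * X ^ (ε / 2) := by
      rw [← Real.rpow_add hX]; congr 1; ring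
    rw [e3]
    exact mul_le_mul_of_nonneg_left (e2.trans h3) (Real.rpow_nonneg hX.le _)

theorem scales2 {T : Set ℝ} (hT : Scales T) {γ : ℝ} (hγ : 0 < γ) {K : ℝ} (hK : 0 < K) :
    ∀ᶠ X : ℝ in atTop, ∀ t : ℝ, X / K ≤ t → ∃ Z ∈ T, t ≤ Z ∧ Z ≤ (1 + γ) * t := by
  obtain ⟨X₀, h⟩ := eventually_atTop.1 (hT γ hγ)
  filter_upwards [eventually_ge_atTop (K * X₀)] with X hX t ht
  apply h
  refine le_trans ?_ ht
  rw [le_div_iff₀ hK]; linarith

/-- short edges, from scales with small gaps -/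
theorem edgeT {T : Set ℝ} {g η γ l u : ℝ} (hg : 0 < g) (hη : 0 < η) (hη1 : η ≤ 1) (hγ : 0 < γ)
    (hγ1 : γ ≤ 2 / 5) (hl : 0 < l)
    (hA : ∀ Z ∈ T, l ≤ Z → Z ≤ u → |I Z (2 * Z) g - q * g * Z| ≤ η * g * Z)
    (hB : ∀ t : ℝ, l ≤ t → ∃ Z ∈ T, t ≤ Z ∧ Z ≤ (1 + γ) * t) :
    ∀ J : ℕ, ∀ A B : ℝ, 4 ^ (J + 1) * l ≤ A → A ≤ B → 2 * B ≤ u → (1 + γ) ^ (2 * J) * B ≤ 2 * A →
      I A B g ≤ g * (B - A) + (5 * (3 / 4) ^ J + 8 * (η + γ)) * (g * B) := by
  have hq := q_le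
  have hq0 := q_pos
  have h1γ : 0 < 1 + γ := by linarith
  have hB' : ∀ t : ℝ, 2 * l ≤ t → ∃ Z ∈ T, t ≤ (1 + γ) * Z ∧ Z ≤ t := by
    intro t ht
    obtain ⟨Z, hZ, h1, h2⟩ := hB (t / (1 + γ)) (by
      rw [le_div_iff₀ h1γ]
      have := mul_le_mul_of_nonneg_left hγ1 hl.le
      linarith)
    refine ⟨Z, hZ, ?_, ?_⟩
    · rw [div_le_iff₀ h1γ] at h1; linarith
    · have e : (1 + γ) * (t / (1 + γ)) = t := by field_simp
      rwa [e] at h2
  intro J
  induction J with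
  | zero =>
    intro A B h1 h2 h3 h4
    rw [mul_zero, pow_zero, one_mul] at h4
    rw [zero_add, pow_one] at h1
    have hA0 : 0 < A := by linarith
    obtain ⟨z, hz, hz1, hz2⟩ := hB' A (by linarith)
    obtain ⟨w, hw, hw1, hw2⟩ := hB A (by linarith)
    have hγA := mul_le_mul_of_nonneg_right hγ1 hA0.le
    have hz3 : A * (5 / 7) ≤ z := by
      by_contra hcon
      rw [not_le] at hcon
      have h5 : (1 + γ) * z < (1 + γ) * (A * (5 / 7)) := mul_lt_mul_of_pos_left hcon h1γ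
      linarith
    have hz0 : 0 < z := by linarith
    have hw3 : w ≤ 7 / 5 * A := by linarith
    have w1 := hA z hz (by linarith) (by linarith)
    have w2 := hA w hw (by linarith) (by linarith)
    rw [abs_le] at w1 w2
    have m1 : I A B g ≤ I z (2 * w) g := I_mono hg.le hz2 (by linarith)
    have m2 : I z w g ≤ I z (2 * z) g := I_mono hg.le le_rfl (by linarith)
    have m3 := I_add hg.le z w (2 * w)
    have hgz : 0 < g * z := mul_pos hg hz0
    have hgw : 0 < g * w := mul_pos hg (by linarith)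
    have n1 : q * g * z ≤ g * z := by nlinarith
    have n2 : η * g * z ≤ g * z := by nlinarith
    have n3 : q * g * w ≤ g * w := by nlinarith
    have n4 : η * g * w ≤ g * w := by nlinarith
    have n5 : g * z ≤ g * A := mul_le_mul_of_nonneg_left hz2 hg.le
    have n6 : g * w ≤ g * (7 / 5 * A) := mul_le_mul_of_nonneg_left hw3 hg.le
    have n7 : g * A ≤ g * B := mul_le_mul_of_nonneg_left h2 hg.le
    have n8 : 0 ≤ (η + γ) * (g * B) := by
      have : 0 < g * B := mul_pos hg (by linarith)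
      positivity
    have n9 : 0 ≤ g * (B - A) := mul_nonneg hg.le (by linarith)
    have n10 : 0 < g * A := mul_pos hg hA0
    rw [pow_zero]
    linarith [w1.2, w2.2]
  | succ J ih =>
    intro A B h1 h2 h3 h4
    have hp : (1 : ℝ) ≤ 4 ^ (J + 1) := one_le_pow₀ (by norm_num)
    have h1' : 4 * (4 ^ (J + 1) * l) ≤ A := by rw [pow_succ] at h1; linarith
    have hll : l ≤ 4 ^ (J + 1) * l := le_mul_of_one_le_left hl.le hp
    have hA0 : 0 < A := by linarith
    have hB0 : 0 < B := by linarith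
    obtain ⟨a, ha, ha1, ha2⟩ := hB' (A / 2) (by linarith)
    obtain ⟨b, hb, hb1, hb2⟩ := hB (B / 2) (by linarith)
    have hab : a ≤ b := by linarith
    have hγA := mul_le_mul_of_nonneg_right hγ1 hA0.le
    have hγB := mul_le_mul_of_nonneg_right hγ1 hB0.le
    have ha3 : A / 4 ≤ a := by
      by_contra hcon
      rw [not_le] at hcon
      have h5 : (1 + γ) * a < (1 + γ) * (A / 4) := mul_lt_mul_of_pos_left hcon h1γ
      linarith
    have ha0 : 0 < a := by linarith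
    have hb0 : 0 < b := by linarith
    have hb3 : b ≤ 3 / 4 * B := by linarith
    have hcond : (1 + γ) ^ (2 * J) * b ≤ 2 * a := by
      have hP : 0 < (1 + γ) ^ (2 * J) := pow_pos h1γ _
      have e : (1 + γ) ^ (2 * (J + 1)) = (1 + γ) ^ (2 * J) * (1 + γ) * (1 + γ) := by
        rw [show 2 * (J + 1) = 2 * J + 1 + 1 by ring, pow_succ, pow_succ]
      rw [e] at h4
      apply le_of_mul_le_mul_left _ h1γ
      have h5 := mul_le_mul_of_nonneg_left hb2 (mul_pos h1γ hP).le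
      have e2 : (1 + γ) * (1 + γ) ^ (2 * J) * ((1 + γ) * (B / 2)) =
        (1 + γ) ^ (2 * J) * (1 + γ) * (1 + γ) * B / 2 := by ring
      rw [e2] at h5
      linarith
    have ihab := ih a b (by linarith) hab (by linarith) hcond
    have m1 : I A B g ≤ I (2 * a) (2 * b) g := I_mono hg.le (by linarith) (by linarith)
    have m2 := I_add hg.le a b (2 * b)
    have m3 := I_add hg.le a (2 * a) (2 * b)
    have w1 := hA b hb (by linarith) (by linarith)
    have w2 := hA a ha (by linarith) (by linarith)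
    rw [abs_le] at w1 w2
    -- `2 (b - a) ≤ (B - A) + 2 γ B`
    have k1 : (1 - γ) * A ≤ 2 * a := by
      have h5 : 0 ≤ (1 - γ) * ((1 + γ) * a - A / 2) := mul_nonneg (by linarith) (by linarith)
      have h6 : 0 ≤ γ * γ * a := by positivity
      linarith
    have hγB0 : 0 < γ * B := mul_pos hγ hB0
    have k2 : γ * A ≤ γ * B := mul_le_mul_of_nonneg_left h2 hγ.le
    have k3 : 2 * (b - a) ≤ (B - A) + 2 * (γ * B) := by linarith
    have k4 : g * (2 * (b - a)) ≤ g * ((B - A) + 2 * (γ * B)) := mul_le_mul_of_nonneg_left k3 hg.le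
    have k5 : g * b ≤ g * (3 / 4 * B) := mul_le_mul_of_nonneg_left hb3 hg.le
    have hc : 0 < 5 * (3 / 4 : ℝ) ^ J + 8 * (η + γ) := by positivity
    have k6 : (5 * (3 / 4) ^ J + 8 * (η + γ)) * (g * b) ≤ (5 * (3 / 4) ^ J + 8 * (η + γ)) * (g * (3 / 4 * B)) :=
      mul_le_mul_of_nonneg_left k5 hc.le
    have k7 : q * g * b - q * g * a ≤ g * (b - a) := by
      have h5 : 0 ≤ g * (b - a) := mul_nonneg hg.le (by linarith)
      have : q * g * b - q * g * a = q * (g * (b - a)) := by ring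
      rw [this]
      nlinarith
    have hgB : 0 < g * B := mul_pos hg hB0
    have k8 : η * g * a + η * g * b ≤ 2 * (η * (g * B)) := by
      have h5 : η * (g * a) ≤ η * (g * B) :=
        mul_le_mul_of_nonneg_left (mul_le_mul_of_nonneg_left (by linarith) hg.le) hη.le
      have h6 : η * (g * b) ≤ η * (g * B) :=
        mul_le_mul_of_nonneg_left (mul_le_mul_of_nonneg_left (by linarith) hg.le) hη.le
      linarith
    have e : (5 * (3 / 4 : ℝ) ^ (J + 1) + 8 * (η + γ)) * (g * B) =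
        (5 * (3 / 4) ^ J + 8 * (η + γ)) * (g * (3 / 4 * B)) + 2 * (η * (g * B)) + 2 * (γ * (g * B)) := by
      rw [pow_succ]; ring
    rw [e]
    have e2 : g * ((B - A) + 2 * (γ * B)) = g * (B - A) + 2 * (γ * (g * B)) := by ring
    rw [e2] at k4
    linarith [w1.2, w2.1]

theorem unif_of_scales {T S : Set ℝ} (hT : Scales T) (hS : UnifT T S) : Unif S := by
  intro ε hε hε1 η hη
  obtain ⟨J, hJ⟩ := exists_pow_lt_of_lt_one (show 0 < η / 40 by linarith) (show (3 / 4 : ℝ) < 1 by norm_num)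
  obtain ⟨η₁, hη₁, hη₁a, hη₁b⟩ : ∃ η₁ : ℝ, 0 < η₁ ∧ η₁ ≤ 1 ∧ η₁ ≤ η / 72 :=
    ⟨min (η / 72) 1, lt_min (by linarith) one_pos, min_le_right _ _, min_le_left _ _⟩
  have hn : (0 : ℝ) < ((2 * J + 2 : ℕ) : ℝ) := by positivity
  have hlog : 0 < Real.log 2 := Real.log_pos (by norm_num)
  obtain ⟨γ, hγ, hγ1, hγ2, hγ3⟩ : ∃ γ : ℝ, 0 < γ ∧ γ ≤ 2 / 5 ∧ γ ≤ η / 76 ∧ (1 + γ) ^ (2 * J + 2) ≤ 2 := by
    refine ⟨min (min (2 / 5) (η / 76)) (Real.log 2 / ((2 * J + 2 : ℕ) : ℝ)),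
      lt_min (lt_min (by norm_num) (by linarith)) (by positivity),
      le_trans (min_le_left _ _) (min_le_left _ _), le_trans (min_le_left _ _) (min_le_right _ _), ?_⟩
    set γ := min (min (2 / 5) (η / 76)) (Real.log 2 / ((2 * J + 2 : ℕ) : ℝ)) with hγdef
    have h0 : 0 < γ := lt_min (lt_min (by norm_num) (by linarith)) (by positivity)
    have h1 : γ ≤ Real.log 2 / ((2 * J + 2 : ℕ) : ℝ) := min_le_right _ _
    have h2 : 1 + γ ≤ Real.exp γ := by linarith [Real.add_one_le_exp γ]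
    have h3 : (1 + γ) ^ (2 * J + 2) ≤ Real.exp γ ^ (2 * J + 2) := pow_le_pow_left₀ (by linarith) h2 _
    rw [← Real.exp_nat_mul] at h3
    refine h3.trans ?_
    have h4 : ((2 * J + 2 : ℕ) : ℝ) * γ ≤ Real.log 2 := by
      rw [le_div_iff₀ hn] at h1; linarith
    have h5 := Real.exp_le_exp.2 h4
    rwa [Real.exp_log (by norm_num)] at h5
  have h1γ : 0 < 1 + γ := by linarith
  obtain ⟨K, hK⟩ : ∃ K : ℝ, K = 4 ^ (J + 2) := ⟨_, rfl⟩
  have hK16 : 16 ≤ K := by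
    rw [hK]
    calc (16 : ℝ) = 4 ^ 2 := by norm_num
      _ ≤ 4 ^ (J + 2) := pow_le_pow_right₀ (by norm_num) (by omega)
  have hK0 : 0 < K := by linarith
  filter_upwards [unif2T hS hε hε1 hη₁ (K := K) (by linarith), scales2 hT hγ hK0,
    eventually_gt_atTop 0] with X h1 h2 hX g hg hg1 hg2
  have hg0 : 0 < g := lt_of_le_of_lt (Real.rpow_nonneg hX.le _) hg1
  have hXK : X / K ≤ X / 16 := div_le_div_of_nonneg_left hX.le (by norm_num) hK16
  have hKX : 16 * X ≤ K * X := mul_le_mul_of_nonneg_right hK16 hX.le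
  have hγX := mul_le_mul_of_nonneg_right hγ1 hX.le
  obtain ⟨z1, hz1, hz1a, hz1b⟩ := h2 X (by linarith)
  obtain ⟨z0, hz0, hz0a, hz0b⟩ := h2 (X / (1 + γ)) (by
    apply div_le_div_of_nonneg_left hX.le h1γ (by linarith))
  have hz0c : X ≤ (1 + γ) * z0 := by
    rw [div_le_iff₀ h1γ] at hz0a; linarith
  have hz0d : z0 ≤ X := by
    have e : (1 + γ) * (X / (1 + γ)) = X := by field_simp
    rwa [e] at hz0b
  have hz0e : X * (5 / 7) ≤ z0 := by
    by_contra hcon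
    rw [not_le] at hcon
    have h5 : (1 + γ) * z0 < (1 + γ) * (X * (5 / 7)) := mul_lt_mul_of_pos_left hcon h1γ
    linarith
  have hz00 : 0 < z0 := by linarith
  have hz1c : z1 ≤ 7 / 5 * X := by linarith
  have hz0f : (1 - γ) * X ≤ z0 := by
    have h5 : 0 ≤ (1 - γ) * ((1 + γ) * z0 - X) := mul_nonneg (by linarith) (by linarith)
    have h6 : 0 ≤ γ * γ * z0 := by positivity
    linarith
  have E := edgeT hg0 hη₁ hη₁a hγ hγ1 (div_pos hX hK0) (T := T) (u := K * X)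
    (fun Z hZ a b => h1 Z hZ a b g hg hg1 hg2) (fun t ht => h2 t ht) J z0 z1 (by
      have e : 4 ^ (J + 1) * (X / K) = X / 4 := by
        rw [hK, pow_succ 4 (J + 1)]; field_simp
      rw [e]; linarith) (by linarith) (by linarith) (by
      have hP : 0 < (1 + γ) ^ (2 * J) := pow_pos h1γ _
      calc (1 + γ) ^ (2 * J) * z1 ≤ (1 + γ) ^ (2 * J) * ((1 + γ) * X) :=
            mul_le_mul_of_nonneg_left hz1b hP.le
        _ ≤ (1 + γ) ^ (2 * J) * ((1 + γ) * ((1 + γ) * z0)) :=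
            mul_le_mul_of_nonneg_left (mul_le_mul_of_nonneg_left hz0c h1γ.le) hP.le
        _ = (1 + γ) ^ (2 * J + 2) * z0 := by rw [pow_add]; ring
        _ ≤ 2 * z0 := mul_le_mul_of_nonneg_right hγ3 hz00.le)
  have w1 := h1 z1 hz1 (by linarith) (by linarith) g hg hg1 hg2
  have w0 := h1 z0 hz0 (by linarith) (by linarith) g hg hg1 hg2
  rw [abs_le] at w1 w0
  have m1 : I X (2 * X) g ≤ I z0 (2 * z1) g := I_mono hg0.le hz0d (by linarith)
  have m2 := I_add hg0.le z0 z1 (2 * z1)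
  have m3 : I z1 (2 * z0) g ≤ I X (2 * X) g := I_mono hg0.le hz1a (by linarith)
  have m4 := I_add hg0.le z0 z1 (2 * z0)
  have hq := q_le
  have hq0 := q_pos
  obtain ⟨P, hP⟩ : ∃ P, P = g * X := ⟨_, rfl⟩
  have hP0 : 0 < P := by rw [hP]; exact mul_pos hg0 hX
  -- the edge
  have hz10 : 0 < z1 := by linarith
  have hc : 0 < 5 * (3 / 4 : ℝ) ^ J + 8 * (η₁ + γ) := by positivity
  have hc2 : 5 * (3 / 4 : ℝ) ^ J + 8 * (η₁ + γ) ≤ η / 8 + 8 * η₁ + 8 * γ := by linarith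
  have k1 : g * (z1 - z0) ≤ 2 * γ * P := by
    have := mul_le_mul_of_nonneg_left (show z1 - z0 ≤ 2 * γ * X by linarith) hg0.le
    rw [hP]; linarith
  have k2 : g * z1 ≤ 7 / 5 * P := by
    have := mul_le_mul_of_nonneg_left hz1c hg0.le
    rw [hP]; linarith
  have k3 : (5 * (3 / 4) ^ J + 8 * (η₁ + γ)) * (g * z1) ≤ (η / 8 + 8 * η₁ + 8 * γ) * (7 / 5 * P) :=
    mul_le_mul hc2 k2 (by positivity) (by linarith)
  have hη₁P : η₁ * P ≤ η / 72 * P := mul_le_mul_of_nonneg_right hη₁b hP0.le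
  have hγP : γ * P ≤ η / 76 * P := mul_le_mul_of_nonneg_right hγ2 hP0.le
  have hηP : 0 < η * P := mul_pos hη hP0
  have hγP0 : 0 < γ * P := mul_pos hγ hP0
  have hη₁P0 : 0 < η₁ * P := mul_pos hη₁ hP0
  have k4 : q * g * z1 ≤ q * g * X + γ * P := by
    have h5 : q * (g * z1) ≤ q * (g * ((1 + γ) * X)) :=
      mul_le_mul_of_nonneg_left (mul_le_mul_of_nonneg_left hz1b hg0.le) hq0.le
    have h6 : q * (γ * P) ≤ 1 * (γ * P) := mul_le_mul_of_nonneg_right hq hγP0.le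
    have h7 : q * (g * ((1 + γ) * X)) = q * g * X + q * (γ * P) := by rw [hP]; ring
    linarith
  have k5 : η₁ * g * z1 ≤ 7 / 5 * (η₁ * P) := by
    have := mul_le_mul_of_nonneg_left k2 hη₁.le
    linarith
  have k6 : q * g * X - γ * P ≤ q * g * z0 := by
    have h5 : q * (g * ((1 - γ) * X)) ≤ q * (g * z0) :=
      mul_le_mul_of_nonneg_left (mul_le_mul_of_nonneg_left hz0f hg0.le) hq0.le
    have h6 : q * (γ * P) ≤ 1 * (γ * P) := mul_le_mul_of_nonneg_right hq hγP0.le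
    have h7 : q * (g * ((1 - γ) * X)) = q * g * X - q * (γ * P) := by rw [hP]; ring
    linarith
  have k7 : η₁ * g * z0 ≤ η₁ * P := by
    have h5 : η₁ * (g * z0) ≤ η₁ * (g * X) :=
      mul_le_mul_of_nonneg_left (mul_le_mul_of_nonneg_left hz0d hg0.le) hη₁.le
    rw [hP]; linarith
  have e : η * g * X = η * P := by rw [hP]; ring
  rw [e, abs_le]
  constructor <;> linarith [w1.2, w0.1]

/-- the asymptotic formula for all functions with values in `S`, along the scales in `T` -/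
def LawT (T S : Set ℝ) : Prop :=
  ∀ ε : ℝ, 0 < ε → ∀ H : ℝ → ℝ, (∀ᶠ X in atTop, X ^ ε < H X ∧ H X < X ^ (1 - ε)) →
    (∀ᶠ X in atTop, H X ∈ S) → Tendsto (fun X => U X (H X)) (atTop ⊓ 𝓟 T) (𝓝 1)

theorem unifT_of_law {T S : Set ℝ} (hS : ∀ᶠ y : ℝ in atTop, ∃ h ∈ S, y / 2 ≤ h ∧ h ≤ y) (hL : LawT T S) :
    UnifT T S := by
  intro ε hε hε1 η hη
  obtain ⟨H, hH⟩ : ∃ H : ℝ → ℝ, ∀ᶠ X in atTop, (H X ∈ S ∧ X ^ ε < H X ∧ H X < X ^ (1 - ε)) ∧
      ((∃ g ∈ S, X ^ ε < g ∧ g < X ^ (1 - ε) ∧ ¬ |I X (2 * X) g - q * g * X| ≤ η * g * X) →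
        ¬ |I X (2 * X) (H X) - q * (H X) * X| ≤ η * (H X) * X) := by
    refine Filter.Eventually.choice (r := fun X y => (y ∈ S ∧ X ^ ε < y ∧ y < X ^ (1 - ε)) ∧
      ((∃ g ∈ S, X ^ ε < g ∧ g < X ^ (1 - ε) ∧ ¬ |I X (2 * X) g - q * g * X| ≤ η * g * X) →
        ¬ |I X (2 * X) y - q * y * X| ≤ η * y * X)) ?_
    filter_upwards [ne_of_half hS hε1] with X hX
    by_cases hb : ∃ g ∈ S, X ^ ε < g ∧ g < X ^ (1 - ε) ∧ ¬ |I X (2 * X) g - q * g * X| ≤ η * g * X
    · obtain ⟨g, hg, h1, h2, h3⟩ := hb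
      exact ⟨g, ⟨hg, h1, h2⟩, fun _ => h3⟩
    · obtain ⟨g, hg, h1, h2⟩ := hX
      exact ⟨g, ⟨hg, h1, h2⟩, fun h => absurd h hb⟩
  have hlim := hL ε hε H (hH.mono fun _ h => ⟨h.1.2.1, h.1.2.2⟩) (hH.mono fun _ h => h.1.1)
  have hclose := eventually_inf_principal.1 (hlim.eventually (Metric.ball_mem_nhds 1 hη))
  filter_upwards [hH, hclose, eventually_gt_atTop 0] with X h1 h2' hX hXT g hg hg1 hg2
  have h2 := h2' hXT
  by_contra hcon
  apply h1.2 ⟨g, hg, hg1, hg2, hcon⟩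
  have hHX : 0 < H X := lt_of_le_of_lt (Real.rpow_nonneg hX.le _) h1.1.2.1
  rw [Real.dist_eq] at h2
  have hqp := q_pos
  have hp : 0 < q * H X * X := by positivity
  rw [U_eq hX hHX, abs_mul, abs_of_pos hp]
  calc q * H X * X * |U X (H X) - 1| ≤ q * H X * X * η := mul_le_mul_of_nonneg_left h2.le hp.le
    _ = q * (η * H X * X) := by ring
    _ ≤ 1 * (η * H X * X) := mul_le_mul_of_nonneg_right q_le (by positivity)
    _ = η * H X * X := one_mul _

theorem lawT_of_law {T S : Set ℝ} (h : LawU univ) : LawT T S := by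
  intro ε hε H hH _
  exact (h ε hε H hH (Eventually.of_forall fun _ => mem_univ _)).mono_left inf_le_left

theorem lawT_iff_of_gaps {T S : Set ℝ} (hT : Scales T) {c : ℝ} (hc : 0 < c) (hG : GapsF c S) :
    LawT T S ↔ LawU univ := by
  refine ⟨fun h => ?_, lawT_of_law⟩
  have h0 : 0 < min c (1 / 2) := lt_min hc (by norm_num)
  have h1 : min c (1 / 2) < 1 := lt_of_le_of_lt (min_le_right _ _) (by norm_num)
  exact law_of_unif (unif_of_gaps h0 h1 (gaps_of_gapsF (gapsF_mono (min_le_left _ _) hG))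
    (unif_of_scales hT (unifT_of_law (half_of_gaps hc hG) h)))

theorem lawT_iff_of_sparse {T E : Set ℝ} (hT : Scales T) {θ : ℝ} (hθ0 : 0 ≤ θ) (hθ : θ < 1 / 2)
    (hE : SparseF θ E) : LawT T Eᶜ ↔ LawU univ := by
  refine ⟨fun h => ?_, lawT_of_law⟩
  exact law_of_unif (unif_of_sparse hθ0 hθ hE (unif_of_scales hT (unifT_of_law (half_of_sparse hθ hE) h)))

theorem scales_of_gaps {S : Set ℝ} {c : ℝ} (hc : 0 < c) (hG : GapsF c S) : Scales S := by
  intro δ hδ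
  have h1δ : 0 < 1 + δ := by linarith
  have ht : Tendsto (fun X : ℝ => (1 + δ) * X) atTop atTop := tendsto_id.const_mul_atTop h1δ
  filter_upwards [ht.eventually hG,
    ht.eventually (pow_small (κ := 1 - c) (δ := δ / (1 + δ)) (by linarith) (by positivity))] with X h1 h2
  obtain ⟨h, hh, hh1, hh2⟩ := h1
  refine ⟨h, hh, ?_, hh2⟩
  have e : δ / (1 + δ) * ((1 + δ) * X) = δ * X := by field_simp
  rw [e] at h2
  linarith

/-- about `(log X)^2` scales up to `X` -/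
theorem scales_exp : Scales {y : ℝ | ∃ j : ℕ, y = Real.exp √(j : ℝ)} := by
  intro δ hδ
  have ht : 0 < Real.log (1 + δ) := Real.log_pos (by linarith)
  filter_upwards [Real.tendsto_log_atTop.eventually (eventually_ge_atTop (1 / (2 * Real.log (1 + δ)))),
    eventually_gt_atTop 0] with X h1 hX
  have h0 : 0 < Real.log X := lt_of_lt_of_le (by positivity) h1
  rw [div_le_iff₀ (by positivity)] at h1
  refine ⟨Real.exp √((⌈(Real.log X) ^ 2⌉₊ : ℕ) : ℝ), ⟨_, rfl⟩, ?_, ?_⟩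
  · have h2 : Real.log X ≤ √((⌈(Real.log X) ^ 2⌉₊ : ℕ) : ℝ) := Real.le_sqrt_of_sq_le (Nat.le_ceil _)
    have h3 := Real.exp_le_exp.2 h2
    rwa [Real.exp_log hX] at h3
  · have h2 : ((⌈(Real.log X) ^ 2⌉₊ : ℕ) : ℝ) ≤ (Real.log X + Real.log (1 + δ)) ^ 2 := by
      have := (Nat.ceil_lt_add_one (show 0 ≤ (Real.log X) ^ 2 by positivity)).le
      nlinarith [sq_nonneg (Real.log (1 + δ))]
    have h3 : √((⌈(Real.log X) ^ 2⌉₊ : ℕ) : ℝ) ≤ Real.log X + Real.log (1 + δ) :=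
      (Real.sqrt_le_left (by positivity)).2 h2
    have h4 := Real.exp_le_exp.2 h3
    rw [Real.exp_add, Real.exp_log hX, Real.exp_log (by linarith)] at h4
    linarith

end Pool.Agent.H127.GV
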